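import Pool.Agent.Work.MP_db9399_sw_helper1.LIFTV
import Pool.Agent.Work.MP_db9399_ot_helper1.MAIN
import Pool.Agent.Work.MP_db9399_ot_helper49.VCOLC

/-! # OUTV (owner helper1) -/

set_option autoImplicit false
set_option linter.unusedSectionVars false

namespace Pool.Agent.Work.MP_db9399_sw.helper1

open Finset Classical
open Pool.Agent.Work.MP_db9399_all (nb)
open Pool.Agent.Work.MP_db9399_px (ee)
open Pool.Agent.Work.MP_db9399_dn (IsMat Tot)
open Pool.Agent.Work.MP_db9399_mad (EG)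
open Pool.Agent.Work.MP_db9399_bg (den cl LabP HPre bx den_bx card_univ_zmod card_univ_fin)
open Pool.Agent.Work.MP_db9399_lc (BL)
open Pool.Agent.Work.MP_db9399_lh (Lh ce su sp pt)
open Pool.Agent.Work.MP_db9399_lh.helper99 (den_prod_univ)
open Pool.Agent.Work.MP_db9399_ot (BH Cls)
open Pool.Agent.Work.MP_db9399_ot.helper1
open Pool.Agent.Work.MP_db9399_th (Kern Bdry Host)
open Pool.Agent.Work.MP_db9399_sl (Bip Nsc)
open Pool.Agent.Work.MP_db9399_sw

universe u

theorem labD_mono {V : Type u} [Fintype V] {T : Type} [Fintype T] {Q : SimpleGraph V} {d : ℕ}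
    {σ σ' : ℝ} {lab : V → T} (h : LabD Q d σ' lab) (hσ : σ' ≤ σ) : LabD Q d σ lab where
  deg v P := (h.deg v P).trans (mul_le_mul_of_nonneg_right hσ (Nat.cast_nonneg _))
  sps v P := (h.sps v P).trans (by
    have : σ' * (d : ℝ) ^ 2 ≤ σ * (d : ℝ) ^ 2 := mul_le_mul_of_nonneg_right hσ (by positivity)
    linarith)

/-- number of residues -/
theorem card_res (R : ℕ) (j : ZMod 3) :
    (univ.filter (fun v : Fin (3 * R) => ((v : ℕ) : ZMod 3) = j)).card = R := by
  have hj : j.val < 3 := ZMod.val_lt j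
  have h : (univ : Finset (Fin R)).card =
      (univ.filter (fun v : Fin (3 * R) => ((v : ℕ) : ZMod 3) = j)).card := by
    refine card_bij (fun a _ => (⟨3 * a + j.val, by have := a.2; omega⟩ : Fin (3 * R))) ?_ ?_ ?_
    · intro a _
      rw [mem_filter]
      refine ⟨mem_univ _, ?_⟩
      change ((3 * (a : ℕ) + j.val : ℕ) : ZMod 3) = j
      push_cast
      rw [ZMod.natCast_val, ZMod.cast_id]
      have : (3 : ZMod 3) = 0 := by decide
      rw [this, zero_mul, zero_add]
    · intro a _ b _ hab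
      have h1 := congrArg Fin.val hab
      apply Fin.ext
      change 3 * (a : ℕ) + j.val = 3 * (b : ℕ) + j.val at h1
      omega
    · intro v hv
      rw [mem_filter] at hv
      have h1 : (v : ℕ) % 3 = j.val := by
        rw [← hv.2, ZMod.val_natCast]
      refine ⟨⟨v / 3, by have := v.2; omega⟩, mem_univ _, ?_⟩
      apply Fin.ext
      change 3 * ((v : ℕ) / 3) + j.val = v
      omega
  rw [← h, card_univ, Fintype.card_fin]

theorem card_fiR {M1 R n : ℕ} (e : Kp M1 × Fin (3 * R) ≃ Fin n) (j : ZMod 3) :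
    3 * (univ.filter (fun i => fiR e i = j)).card = n := by
  have h1 : (univ.filter (fun i => fiR e i = j)).card =
      ((univ : Finset (Kp M1)) ×ˢ
        (univ.filter (fun v : Fin (3 * R) => ((v : ℕ) : ZMod 3) = j))).card := by
    refine card_bij (fun i _ => e.symm i) ?_ ?_ ?_
    · intro i hi
      rw [mem_filter] at hi
      rw [mem_product, mem_filter]
      exact ⟨mem_univ _, mem_univ _, hi.2⟩
    · intro i _ i' _ h
      exact e.symm.injective h
    · intro x hx
      rw [mem_product, mem_filter] at hx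
      refine ⟨e x, ?_, by simp⟩
      rw [mem_filter]
      refine ⟨mem_univ _, ?_⟩
      unfold fiR
      rw [Equiv.symm_apply_apply]
      exact hx.2.2
  rw [h1, card_product, card_res, card_univ, card_Kp, ← card_n e]
  ring

section gr
variable {V : Type u} [Fintype V] {W : Type} [Fintype W]

/-- the boundary graph -/
def bv (G : SimpleGraph V) (Sp : Finset V) : SimpleGraph V where
  Adj a b := G.Adj a b ∧ (a ∈ Sp ∨ b ∈ Sp)
  symm := ⟨fun _ _ h => ⟨h.1.symm, h.2.symm⟩⟩
  loopless := ⟨fun v h => G.loopless.irrefl v h.1⟩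

theorem bg_eq (G : SimpleGraph V) (Sp : Finset V) :
    (bg G Sp : SimpleGraph (V ⊕ W)) = eh (bv G Sp) := by
  ext x y
  rcases x with a | a
  · rcases y with b | b
    · rw [bg_ll, eh_ll]
      rfl
    · exact ⟨fun h => absurd h bg_r', fun h => absurd h eh_r'⟩
  · exact ⟨fun h => absurd h bg_r, fun h => absurd h eh_r⟩

theorem card_bv (G : SimpleGraph V) (Sp : Finset V) (a : V) :
    (nb (bv G Sp) a).card ≤ (nb G a).card := by
  apply card_le_card
  intro b hb
  rw [MP_db9399_ot.helper1.mem_nb] at hb ⊢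
  exact hb.1

/-- the vertices of the gadgets -/
def wr : Finset (V ⊕ W) := univ.map ⟨Sum.inr, Sum.inr_injective⟩

theorem mem_wr {w : W} : (Sum.inr w : V ⊕ W) ∈ (wr : Finset (V ⊕ W)) := by
  unfold wr
  rw [mem_map]
  exact ⟨w, mem_univ _, rfl⟩

theorem not_wr {v : V} : (Sum.inl v : V ⊕ W) ∉ (wr : Finset (V ⊕ W)) := by
  unfold wr
  rw [mem_map]
  rintro ⟨w, -, h⟩
  cases h

theorem nb_inl (G : SimpleGraph V) (K : SimpleGraph W) (R : V → W → Prop) (a : V) :
    ∀ x, x ∈ nb (EG G K R) (Sum.inl a) → x ∉ (wr : Finset (V ⊕ W)) → ∃ b, x = Sum.inl b ∧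
      G.Adj a b := by
  intro x hx hx'
  rw [MP_db9399_ot.helper1.mem_nb] at hx
  rcases x with b | w
  · exact ⟨b, rfl, hx⟩
  · exact absurd mem_wr hx'

/-- at most two neighbours in `UH` -/
theorem two_UH {k : ℕ} {G : SimpleGraph V} {UH : Finset V} {c0 : V → Fin k}
    {EH : SimpleGraph V} {tu : V → Fin k} (h : HPre G UH c0 EH tu) (v : V) :
    (nb G v ∩ UH).card ≤ 2 := by
  by_contra h1
  have h2 : 2 < (nb G v ∩ UH).card := by omega
  obtain ⟨a, b, c, ha, hb, hc, hab, hac, hbc⟩ := Finset.two_lt_card_iff.mp h2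
  rw [Finset.mem_inter, MP_db9399_ot.helper1.mem_nb] at ha hb hc
  have h3 := (h.far v a ha.2 b hb.2 ha.1 hb.1).resolve_left hab
  have h4 := (h.far v a ha.2 c hc.2 ha.1 hc.1).resolve_left hac
  have h5 := h.mat a
  rw [card_le_one] at h5
  exact hbc (h5 b ((MP_db9399_ot.helper1.mem_nb _ _ _).mpr h3) c
    ((MP_db9399_ot.helper1.mem_nb _ _ _).mpr h4))

end gr

theorem colD_mono {k n m r : ℕ} {η κ κ' : ℝ} {d D : ℕ} {K0 E1 : Finset (Fin k)}
    {cs : Fin k → Option (Fin n)} {ow : Fin k → Option (ZMod (2 * m + 1) × Fin (r + 1))}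
    (h : ColD η κ' d D K0 E1 cs ow) (hκ : κ' ≤ κ) : ColD η κ d D K0 E1 cs ow where
  nD := h.nD
  K0c := h.K0c
  E1K := h.E1K
  E1c := h.E1c
  cnt := h.cnt
  owK := h.owK
  owl q := (mul_le_mul_of_nonneg_right (by linarith) (Nat.cast_nonneg _)).trans (h.owl q)
  owu := h.owu

/-- density of a cell with a palette -/
theorem den_fq {l m r K K1 S : ℕ} {X : Type} [Fintype X] [Nonempty X]
    (q : ZMod (2 * m + 1) × Fin (r + 1)) (F : Finset (Lh l m r K K1 S × X))
    (hF : ∀ t, t ∈ F ↔ (ce t.1, su t.1) = q) :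
    den F = 1 / (((2 * m + 1) * (r + 1) : ℕ) : ℝ) := by
  have h1 : F =
      (((bx {q.1} univ {q.2} univ univ univ) ×ˢ univ : Finset (Lh l m r K K1 S))) ×ˢ
        (univ : Finset X) := by
    ext t
    rw [hF, mem_product, mem_product, MP_db9399_bg.mem_bx]
    simp only [mem_univ, true_and, and_true, Finset.mem_singleton]
    constructor
    · intro h
      rw [← h]
      exact ⟨rfl, rfl⟩
    · rintro ⟨h1, h2⟩
      exact Prod.ext h1 h2
  rw [h1]
  have h2 : den ((((bx {q.1} univ {q.2} univ univ univ) ×ˢ univ :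
      Finset (Lh l m r K K1 S))) ×ˢ (univ : Finset X)) =
      den (((bx {q.1} univ {q.2} univ univ univ) ×ˢ univ : Finset (Lh l m r K K1 S))) := by
    unfold den
    rw [card_product, Fintype.card_prod, card_univ]
    push_cast
    have : (Fintype.card X : ℝ) ≠ 0 := by
      have : 0 < Fintype.card X := Fintype.card_pos
      positivity
    rw [mul_div_mul_right _ _ this]
  rw [h2, den_prod_univ, den_bx, card_univ_zmod, card_univ_zmod, card_univ_fin, card_univ_fin,
    Finset.card_singleton, Finset.card_singleton]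
  have h1 : (2 * (m : ℝ) + 1) ≠ 0 := by positivity
  have h2 : (2 * (l : ℝ) + 1) ≠ 0 := by positivity
  have h3 : ((r : ℝ) + 1) ≠ 0 := by positivity
  have h4 : ((K : ℝ) + 1) ≠ 0 := by positivity
  have h5 : ((K1 : ℝ) + 1) ≠ 0 := by positivity
  push_cast
  field_simp

/-- from the run on the embedded graph to the run on the graph -/
theorem runR_of {V : Type u} [Fintype V] {W : Type} [Fintype W] {k n l m r K K1 S M1 R0 : ℕ}
    (e : Kp M1 × Fin R0 ≃ Fin n) {G : SimpleGraph V} {KW : SimpleGraph W} {R : V → W → Prop}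
    {H : SimpleGraph (V ⊕ W)} {Gc : Fin n → SimpleGraph (V ⊕ W)} {d D : ℕ} {η κ : ℝ}
    {Sp Fr UH : Finset V} {c0 : V → Fin k} {EH : SimpleGraph V} {tu : V → Fin k} {z : Fin k}
    (hdeg : ∀ x, (nb (EG G KW R) x).card ≤ d) (hSF : Sp ⊆ Fr) (hFU : Disjoint Fr UH)
    (hH : HPre G UH c0 EH tu) {lb : V → Lb M1 R0} {lb' : V ⊕ W → Lb M1 R0}
    (hlb' : ∀ v, lb' (Sum.inl v) = lb v)
    (hsup : ∀ y s, (bg G Sp : SimpleGraph (V ⊕ W)).Adj y s → s ∈ ul Sp →
      (H.Adj y s → 0 < qk e (lb' s) none) ∧ ∀ i, (Gc i).Adj y s → 0 < qk e (lb' s) (some i))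
    {K0 E1 : Finset (Fin k)} {cs : Fin k → Option (Fin n)}
    {ow : Fin k → Option (ZMod (2 * m + 1) × Fin (r + 1))}
    {sy : Fin k → Fin (K1 + 1) × Fin (K1 + 1)} (hCol : ColD η κ d D K0 E1 cs ow)
    {lab : V ⊕ W → Lh l m r K K1 S} {c : V → Fin k} {c' : V ⊕ W → Fin k}
    (hc : ∀ v, v ∉ Fr → c' (Sum.inl v) = c v) {t : V ⊕ W → V ⊕ W → Fin k}
    (h : Run (EG G KW R) H Gc (ul UH) (eh EH) (Sum.elim tu (fun _ => z)) (fiR e) K0 E1 cs sy lab
      c' t) :
    RunR e G Sp Fr UH EH tu K0 E1 cs sy lb (fun v => lab (Sum.inl v)) c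
      (fun v w => t (Sum.inl v) (Sum.inl w)) where
  ts v w := h.tot.2.1 _ _
  te v w hvw := h.te (Sum.inl v) (Sum.inl w) (eh_ll.mpr hvw)
  tK v w hvw hE := h.tK (Sum.inl v) (Sum.inl w) hvw (fun h' => hE (eh_ll.mp h'))
  ti := by
    intro v x hx y hy hxy
    have hx' : Sum.inl x ∈ (nb (EG G KW R) (Sum.inl v) : Set (V ⊕ W)) := by
      rw [mem_coe, MP_db9399_ot.helper1.mem_nb] at hx ⊢
      exact hx
    have hy' : Sum.inl y ∈ (nb (EG G KW R) (Sum.inl v) : Set (V ⊕ W)) := by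
      rw [mem_coe, MP_db9399_ot.helper1.mem_nb] at hy ⊢
      exact hy
    exact Sum.inl.inj (h.tot.2.2.1 (Sum.inl v) hx' hy' hxy)
  tc v w hvw hv := by
    rw [← hc v hv]
    exact h.tot.2.2.2 (Sum.inl v) (Sum.inl w) hvw
  typ := by
    intro s hs hty y hsy hE
    have hsU : s ∉ UH := fun h' => disjoint_left.mp hFU (hSF hs) h'
    have h1 : ¬ (eh EH : SimpleGraph (V ⊕ W)).Adj (Sum.inl s) (Sum.inl y) :=
      fun h' => hsU (hH.EU s y (eh_ll.mp h'))
    have h2 : (bg G Sp : SimpleGraph (V ⊕ W)).Adj (Sum.inl y) (Sum.inl s) :=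
      bg_ll.mpr ⟨hsy.symm, Or.inr hs⟩
    obtain ⟨h3, h4⟩ := hsup _ _ h2 (mem_ul.mpr hs)
    rw [hlb'] at h3
    rcases h.edg (Sum.inl s) (Sum.inl y) hsy h1 hE with h5 | ⟨i, h5, h6⟩
    · rcases qk_pos e (h3 h5.symm) with h7 | ⟨κ', v, κ1, -, h7, -⟩
      · exact absurd h7.1 hty
      · cases h7
    · have h7 := h4 i h6.symm
      rw [hlb'] at h7
      rcases qk_pos e h7 with h8 | ⟨κ', v, κ1, h8, h9, h10⟩
      · exact absurd h8.1 hty
      · refine ⟨i, κ', h5, ?_, ?_⟩
        · rw [h8, Option.some.inj h9, Equiv.symm_apply_apply]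
        · rw [Option.some.inj h9, Equiv.symm_apply_apply]
          exact h10
  spl := by
    intro s hs hty y hsy hE
    have hsU : s ∉ UH := fun h' => disjoint_left.mp hFU (hSF hs) h'
    have h1 : ¬ (eh EH : SimpleGraph (V ⊕ W)).Adj (Sum.inl s) (Sum.inl y) :=
      fun h' => hsU (hH.EU s y (eh_ll.mp h'))
    have h2 : (bg G Sp : SimpleGraph (V ⊕ W)).Adj (Sum.inl y) (Sum.inl s) :=
      bg_ll.mpr ⟨hsy.symm, Or.inr hs⟩
    obtain ⟨h3, -⟩ := hsup _ _ h2 (mem_ul.mpr hs)
    rw [hlb'] at h3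
    rcases h.e1 (Sum.inl s) (Sum.inl y) hsy h1 hE with h5 | ⟨h5, h6, h7⟩
    · rcases qk_pos e (h3 h5.symm) with h7 | ⟨κ', v, κ1, -, h7, -⟩
      · exact absurd h7.1 hty
      · cases h7
    · exact ⟨fun h' => h6 (mem_ul.mpr h'), h7⟩
  mis := by
    intro v hv
    have h1 : ∃ b ∈ K0, b ∉ insert (c' (Sum.inl v))
        ((nb (EG G KW R) (Sum.inl v)).image (fun w => t (Sum.inl v) w)) := by
      by_contra h2
      push Not at h2
      have h3 : K0 ⊆ insert (c' (Sum.inl v))
          ((nb (EG G KW R) (Sum.inl v)).image (fun w => t (Sum.inl v) w)) :=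
        fun b hb => h2 b hb
      have h4 := (card_le_card h3).trans (card_insert_le _ _)
      have h5 : ((nb (EG G KW R) (Sum.inl v)).image (fun w => t (Sum.inl v) w)).card ≤ d :=
        card_image_le.trans (hdeg _)
      rw [hCol.K0c] at h4
      omega
    obtain ⟨b, hb, h2⟩ := h1
    rw [mem_insert, not_or, mem_image] at h2
    have h3 : ∀ w, (EG G KW R).Adj (Sum.inl v) w → t (Sum.inl v) w ≠ b := by
      intro w hw h4
      exact h2.2 ⟨w, (MP_db9399_ot.helper1.mem_nb _ _ _).mpr hw, h4⟩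
    obtain ⟨h4, h5⟩ := h.mis (Sum.inl v) b hb h2.1 h3
    refine ⟨b, hb, ?_, fun w hw => h3 (Sum.inl w) hw, fun hv' => h4 (mem_ul.mpr hv'),
      fun hv' h6 => h5 (fun h7 => hv' (mem_ul.mp h7)) h6⟩
    rw [← hc v hv]
    exact h2.1

/-- EXTC with hypotheses which do not mention decidability -/
def Stmt_EXTC' : Prop :=
  ∀ g : ℝ, 0 < g → g ≤ 1 / 10 → ∃ κ : ℝ, 0 < κ ∧ κ ≤ 1 ∧ ∀ N : ℕ, 0 < N →
    ∃ (σ ε0 : ℝ) (d0 : ℕ), 0 < σ ∧ 0 < ε0 ∧
    ∀ {V : Type u} [Fintype V] {T Q C : Type} [Fintype T] [Fintype Q] (G : SimpleGraph V)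
      (d : ℕ) (c1 : ℝ) (UH Fr Wg : Finset V) (lab : V → T) (fq : T → Q) (P : Q → Finset C)
      (c : V → C), d0 ≤ d → BL g ε0 G d → LabP G d σ c1 lab → Fintype.card Q = N →
      (∀ q (F : Finset T), (∀ t, t ∈ F ↔ fq t = q) → den F = 1 / (N : ℝ)) →
      (∀ q, (1 - κ) * d ≤ N * ((P q).card : ℝ)) → (∀ q, 2 * (N * (P q).card) ≤ 3 * d) →
      (∀ q q', q ≠ q' → Disjoint (P q) (P q')) → (∀ v ∈ Fr, v ∉ Wg) →
      (∀ v ∈ UH, v ∉ Fr ∧ v ∉ Wg) → (∀ v, (nb G v ∩ UH).card ≤ 2) →
      (∀ x ∈ Wg, ∀ y y', G.Adj x y → G.Adj x y' → y ∉ Wg → y' ∉ Wg → y = y') →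
      (∀ s ∈ Fr, ∀ q, ∀ A : Finset V, (∀ v ∈ A, G.Adj s v ∧ v ∉ Wg ∧ fq (lab v) = q) →
        2 * (N * A.card) ≤ d) →
      (∀ v, v ∉ UH → v ∉ Fr → v ∉ Wg → c v ∈ P (fq (lab v))) →
      (∀ v w, v ∉ Fr → v ∉ Wg → w ∉ Fr → w ∉ Wg → G.Adj v w → c v ≠ c w) →
      ∃ c' : V → C, (∀ v, v ∉ Fr → v ∉ Wg → c' v = c v) ∧
        (∀ v, v ∉ UH → c' v ∈ P (fq (lab v))) ∧ ∀ v w, G.Adj v w → c' v ≠ c' w

theorem extc' (h : Stmt_EXTC.{u}) : Stmt_EXTC'.{u} := by
  intro g hg hg1
  obtain ⟨κ, hκ, hκ1, h1⟩ := h g hg hg1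
  refine ⟨κ, hκ, hκ1, fun N hN => ?_⟩
  obtain ⟨σ, ε0, d0, hσ, hε, h2⟩ := h1 N hN
  refine ⟨σ, ε0, d0, hσ, hε, ?_⟩
  intro V _ T Q C _ _ G d c1 UH Fr Wg lab fq P c hd hBL hL hQ hden hP1 hP2 hP3 hFW hUFW hU2 hW1
    hF hc1 hc2
  refine h2 G d c1 UH Fr Wg lab fq P c hd hBL hL hQ ?_ hP1 hP2 hP3 ?_ ?_ hU2 ?_ ?_ hc1 hc2
  · intro q
    apply hden q
    intro t
    rw [mem_filter]
    exact ⟨fun h => h.2, fun h => ⟨mem_univ _, h⟩⟩
  · rw [disjoint_left]
    exact hFW
  · rw [disjoint_left]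
    intro v hv hv'
    rw [mem_union] at hv'
    rcases hv' with h' | h'
    · exact (hUFW v hv).1 h'
    · exact (hUFW v hv).2 h'
  · intro x hx
    rw [card_le_one]
    intro y hy y' hy'
    rw [mem_sdiff, MP_db9399_ot.helper1.mem_nb] at hy hy'
    exact hW1 x hx y y' hy.1 hy'.1 hy.2 hy'.2
  · intro s hs q
    apply hF s hs q
    intro v hv
    rw [mem_filter, mem_sdiff, MP_db9399_ot.helper1.mem_nb] at hv
    exact ⟨hv.1.1, hv.1.2, hv.2⟩

/-- **OUTV** -/
theorem stmt_OUTV_of (hEMBB : MP_db9399_lc.Stmt_EMBB.{u}) (hLABQ : Stmt_LABQ.{u})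
    (hNRMV : Stmt_NRMV.{u}) (hEXTC : Stmt_EXTC.{u}) : Stmt_OUTV.{u} := by
  intro π Rm hπ hπ3
  obtain ⟨M1, hM1⟩ := exists_M1 π hπ3
  obtain ⟨n, hn⟩ : ∃ n, n = (3 * M1 + 1) * (3 * (Rm + 1)) := ⟨_, rfl⟩
  have hcard : Fintype.card (Kp M1 × Fin (3 * (Rm + 1))) = n := by
    rw [Fintype.card_prod, card_Kp, Fintype.card_fin, hn]
  obtain ⟨e⟩ : Nonempty (Kp M1 × Fin (3 * (Rm + 1)) ≃ Fin n) :=
    ⟨Fintype.equivFinOfCardEq hcard⟩
  have hn0 : 0 < n := by
    rw [hn]
    positivity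
  have hnR : (0 : ℝ) ≤ n := Nat.cast_nonneg _
  have hn1 : (0 : ℝ) < (n : ℝ) + 1 := by positivity
  refine ⟨M1, 3 * (Rm + 1), n, e, 1 / (100 * ((n : ℝ) + 1)), by omega, by omega,
    Dvd.intro _ rfl, hM1, by positivity, ?_, ?_⟩
  · apply one_div_le_one_div_of_le (by norm_num)
    linarith
  intro g η κ Km hg hg1 hη hη1 hκ hκ1
  obtain ⟨g', hg', hgg', hE⟩ := hEMBB g hg hg1
  obtain ⟨κE, hκE, hκE1, hX⟩ := extc' hEXTC g' hg' (by linarith)
  obtain ⟨l, m, r, K, K1, S, εN, hKm, hl, hm, hεN, hN⟩ := hNRMV g' (g' / 20) η (min κ κE) n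
    (fiR e) Km hg' (by linarith) (by positivity) (by linarith) hη hη1 (lt_min hκ hκE)
    ((min_le_left _ _).trans hκ1) hn0 (card_fiR e)
  refine ⟨l, m, r, K, K1, S, hKm, hl, hm, ?_⟩
  intro X _ _ F σ s hσ hs
  obtain ⟨N, hNd⟩ : ∃ N, N = (2 * m + 1) * (r + 1) := ⟨_, rfl⟩
  have hN0 : 0 < N := by rw [hNd]; positivity
  have hN0' : (0 : ℝ) < N := by exact_mod_cast hN0
  obtain ⟨σX, εX, dX, hσX, hεX, hX'⟩ := hX N hN0
  obtain ⟨σ1, hσ1d⟩ : ∃ σ1 : ℝ, σ1 = min σ (min σX (1 / (4 * N))) := ⟨_, rfl⟩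
  have hσ10 : 0 < σ1 := by rw [hσ1d]; exact lt_min hσ (lt_min hσX (by positivity))
  have hσ11 : σ1 ≤ σ := by rw [hσ1d]; exact min_le_left _ _
  have hσ12 : σ1 ≤ σX := by rw [hσ1d]; exact (min_le_right _ _).trans (min_le_left _ _)
  have hσ13 : σ1 ≤ 1 / (4 * N) := by rw [hσ1d]; exact (min_le_right _ _).trans (min_le_right _ _)
  obtain ⟨dN, hN'⟩ := hN X (F + 1) σ1 s hσ10 hs
  obtain ⟨εT, σT, dT, hεT, hσT, hT⟩ := MP_db9399_th.helper59.thin_uniform.{u} n (6 * (n + 1)) g'
    εN hg' (by linarith) hεN (by omega) hn0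
  obtain ⟨dE, hE'⟩ := hE (min εT (min εN εX)) (lt_min hεT (lt_min hεN hεX))
  have : NeZero (3 * (Rm + 1)) := ⟨by omega⟩
  obtain ⟨dL, hL⟩ := hLABQ (Lb M1 (3 * (Rm + 1))) (F + 1) (min σ σT) 1 (1 / 2) (s / 2)
    (lt_min hσ hσT) one_pos (by norm_num) (by positivity)
  refine ⟨max (max dN dT) (max dE (max dL (max dX 6))), ?_⟩
  intro V _ G d k Sp Fr UH c0 EH tu hd hdV hk hdeg hSp hFr hSF hFU hind hbip hnsc hH
    Qs J _ Φ ct tt hQs hTQ
  have hdN : dN ≤ d := by omega
  have hdT : dT ≤ d := by omega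
  have hdE : dE ≤ d := by omega
  have hdL : dL ≤ d := by omega
  have hdX : dX ≤ d := by omega
  have hd6 : 6 ≤ d := by omega
  have hd0 : (0 : ℝ) ≤ d := Nat.cast_nonneg _
  -- labels
  obtain ⟨lb, hlb, hlbt⟩ := hL (V := V) (Fin.cons (bv G Sp) Qs) (2 * d) (fun _ => d) J Φ ct tt
    (by omega)
    (by
      intro i
      refine Fin.cases ?_ ?_ i
      · intro v
        rw [Fin.cons_zero]
        exact ((card_bv G Sp v).trans (hdeg v)).trans (by omega)
      · intro i v
        rw [Fin.cons_succ]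
        exact hQs i v)
    (by
      intro i
      push_cast
      constructor
      · linarith
      · omega)
    (tq_two hTQ hs.le hd6)
  have hlb0 : LabD (bv G Sp) d (min σ σT) lb := by
    have := hlb 0
    rw [Fin.cons_zero] at this
    exact labD_P this
  have hlbi : ∀ i, LabD (Qs i) d (min σ σT) lb := by
    intro i
    have := hlb i.succ
    rw [Fin.cons_succ] at this
    exact labD_P this
  obtain ⟨W, hW, KW, R, hR, hBL⟩ := hE' G d hdE hdV hdeg hbip hnsc
  obtain ⟨lb', hlb'⟩ : ∃ lb' : V ⊕ W → Lb M1 (3 * (Rm + 1)),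
      ∀ v, lb' (Sum.inl v) = lb v :=
    ⟨Sum.elim lb (fun _ => (0, true, none)), fun v => rfl⟩
  obtain ⟨H, Gc, D, hBH, hCls, hDd, -, hsup⟩ := hT (EG G KW R) d (ul Sp) (bg G Sp) lb' (qk e)
    hdT (bl_mono hBL (min_le_left _ _)) (bdry hSp hind KW R hR) (card_Lb e) (kern e)
    (by
      intro y hy l
      rcases y with a | w
      · have h1 := hlb0.deg a {l}
        have h2 : den ({l} : Finset (Lb M1 (3 * (Rm + 1)))) = 1 / ((6 * (n + 1) : ℕ) : ℝ) := by
          unfold den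
          rw [card_singleton, card_Lb e, Nat.cast_one]
        have h3 : ((nb (bg G Sp : SimpleGraph (V ⊕ W)) (Sum.inl a)).filter
            (fun s => lb' s = l)).card = (nb (bv G Sp) a ∩ cl lb {l}).card := by
          rw [bg_eq, nb_eh, ← card_ul (W := W) (nb (bv G Sp) a ∩ cl lb {l})]
          refine congrArg Finset.card (Finset.ext fun x => ?_)
          rw [mem_filter]
          rcases x with b | w
          · rw [mem_ul, mem_ul, Finset.mem_inter, mem_cl, hlb', Finset.mem_singleton]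
          · exact ⟨fun h => absurd h.1 not_ul, fun h => absurd h not_ul⟩
        have h4 : (nb (bg G Sp : SimpleGraph (V ⊕ W)) (Sum.inl a)).card =
            (nb (bv G Sp) a).card := by
          rw [bg_eq, nb_eh, card_ul]
        rw [h3, h4]
        rw [h2] at h1
        have h5 : 1 / ((6 * (n + 1) : ℕ) : ℝ) * (nb (bv G Sp) a).card =
            ((nb (bv G Sp) a).card : ℝ) / ((6 * (n + 1) : ℕ) : ℝ) := by
          ring
        rw [h5] at h1
        exact h1.trans (mul_le_mul_of_nonneg_right (min_le_right _ _) hd0)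
      · rw [card_nb_bg', filter_empty, card_empty]
        simp only [Nat.cast_zero, zero_div, sub_self, abs_zero]
        positivity)
  have hkpos : 0 < k := by omega
  obtain ⟨K0, E1, cs, ow, sy, hCol, hlab⟩ := hN' (EG G KW R) H Gc d D k (ul UH)
    (Sum.elim c0 (fun _ => ⟨0, hkpos⟩)) (eh EH) (Sum.elim tu (fun _ => ⟨0, hkpos⟩)) hdN hk
    (bl_mono hBL ((min_le_right _ _).trans (min_le_left _ _)))
    (bh_mono hBH le_rfl (by
      have : g' / 20 ≤ g' := by linarith
      exact mul_le_mul_of_nonneg_right (by linarith) hd0))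
    hCls (hpre_lift hH KW R hR _)
  refine ⟨lb, fun i => labD_mono (hlbi i) (min_le_left _ _), hlbt, D, K0, E1, cs, ow, sy,
    colD_mono hCol (min_le_left _ _), ?_⟩
  intro Qs' J' _ Φ' ct' tt' hQs' hTQ'
  obtain ⟨lab, hlabG, hlabQ, hlabt, hrun⟩ := hlab (Fin.cons (eh G) (fun i => eh (Qs' i))) J'
    (fun j f => Φ' j (fun v => f (Sum.inl v))) (fun j => Sum.elim (ct' j) (fun _ => 0)) tt'
    (by
      intro i
      refine Fin.cases ?_ ?_ i
      · intro x
        rw [Fin.cons_zero]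
        rcases x with a | w
        · rw [nb_eh, card_ul]
          exact (hdeg a).trans (by omega)
        · rw [nb_eh_r, card_empty]
          omega
      · intro i x
        rw [Fin.cons_succ]
        rcases x with a | w
        · rw [nb_eh, card_ul]
          exact hQs' i a
        · rw [nb_eh_r, card_empty]
          omega)
    (tq_lift hTQ')
  have hlabG0 : LabD G d σ1 (fun v => lab (Sum.inl v)) := by
    have := hlabQ 0
    rw [Fin.cons_zero] at this
    exact labD_of this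
  refine ⟨fun v => lab (Sum.inl v), labD_mono hlabG0 hσ11, ?_, ?_, ?_⟩
  · intro i
    have := hlabQ i.succ
    rw [Fin.cons_succ] at this
    exact labD_mono (labD_of this) hσ11
  · intro j
    have h1 := hlabt j
    rw [avgL_lift] at h1
    exact h1
  intro c hc1 hc2 hc3
  have hNcard : Fintype.card (ZMod (2 * m + 1) × Fin (r + 1)) = N := by
    rw [Fintype.card_prod, ZMod.card, Fintype.card_fin, hNd]
  have hNr : (N : ℝ) = (2 * m + 1) * (r + 1) := by
    rw [hNd]
    push_cast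
    ring
  obtain ⟨c', hc'1, hc'2, hc'3⟩ := hX' (EG G KW R) d 1 (ul UH) (ul Fr) wr lab
    (fun t => (ce t.1, su t.1)) (fun q => univ.filter (fun b => ow b = some q))
    (Sum.elim c (fun _ => ⟨0, hkpos⟩)) hdX
    (bl_mono hBL ((min_le_right _ _).trans (min_le_right _ _)))
    (by
      exact {
        deg := fun v P => (hlabG.deg v P).trans (mul_le_mul_of_nonneg_right hσ12 hd0)
        sps := fun v P => (hlabG.sps v P).trans (by
          have : σ1 * (d : ℝ) ^ 2 ≤ σX * (d : ℝ) ^ 2 :=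
            mul_le_mul_of_nonneg_right hσ12 (by positivity)
          linarith)
        cod := fun P Q L w R S θ1 θ2 h1 h2 h3 h4 h5 h6 h7 h8 => by
          obtain ⟨a1, a2, a3⟩ := hlabG.cod P Q L w R S θ1 θ2 h1 h2 h3 h4 h5 h6 h7 h8
          refine ⟨a1.trans ?_, a2.trans ?_, a3.trans ?_⟩
          · exact mul_le_mul_of_nonneg_right (mul_le_mul_of_nonneg_right hσ12 hd0)
              (by positivity)
          · exact mul_le_mul_of_nonneg_right hσ12 (by positivity)
          · exact mul_le_mul_of_nonneg_right hσ12 (by positivity) })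
    hNcard
    (by
      intro q F hF
      rw [hNd]
      exact den_fq q F hF)
    (by
      intro q
      have h1 := hCol.owl q
      rw [hNr]
      refine le_trans ?_ h1
      exact mul_le_mul_of_nonneg_right (by linarith [min_le_right κ κE]) hd0)
    (by
      intro q
      rw [hNd]
      exact hCol.owu q)
    (by
      intro q q' hq
      rw [disjoint_left]
      intro b hb hb'
      rw [mem_filter] at hb hb'
      exact hq (Option.some.inj (hb.2.symm.trans hb'.2)))
    (by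
      intro x hx hx'
      rcases x with a | w
      · exact not_wr hx'
      · exact not_ul hx)
    (by
      intro x hx
      rcases x with a | w
      · exact ⟨fun h1 => disjoint_left.mp hFU (mem_ul.mp h1) (mem_ul.mp hx), not_wr⟩
      · exact absurd hx not_ul)
    (two_UH (hpre_lift hH KW R hR ⟨0, hkpos⟩))
    (by
      intro x hx y y' hy hy' hy1 hy2
      rcases x with a | w
      · exact absurd hx not_wr
      · rcases y with b | b
        · rcases y' with b' | b'
          · rw [hR w b b' hy hy']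
          · exact absurd mem_wr hy2
        · exact absurd mem_wr hy1)
    (by
      intro x hx q A hA
      rcases x with a | w
      · have ha : a ∈ Fr := mem_ul.mp hx
        obtain ⟨FF, hFF⟩ : ∃ FF : Finset (Lh l m r K K1 S × X),
            ∀ t, t ∈ FF ↔ (ce t.1, su t.1) = q :=
          ⟨univ.filter (fun t => (ce t.1, su t.1) = q), fun t => by
            rw [mem_filter]
            exact ⟨fun h => h.2, fun h => ⟨mem_univ _, h⟩⟩⟩
        have h1 := hlabG0.deg a FF
        rw [den_fq q FF hFF, ← hNd] at h1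
        have h2 : A.card ≤ (nb G a ∩ cl (fun v => lab (Sum.inl v)) FF).card := by
          rw [← card_ul (W := W) (nb G a ∩ cl (fun v => lab (Sum.inl v)) FF)]
          apply card_le_card
          intro y hy
          obtain ⟨h3, h4, h5⟩ := hA y hy
          rcases y with b | w
          · rw [mem_ul, Finset.mem_inter, mem_cl, hFF, MP_db9399_ot.helper1.mem_nb]
            exact ⟨h3, h5⟩
          · exact absurd mem_wr h4
        have h3 : 4 * ((nb G a).card : ℝ) ≤ d := by exact_mod_cast hFr a ha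
        have h4 : ((nb G a ∩ cl (fun v => lab (Sum.inl v)) FF).card : ℝ) ≤
            1 / N * (nb G a).card + σ1 * d := by
          linarith [(abs_le.mp h1).2]
        have h5 : σ1 * d ≤ 1 / (4 * N) * d := mul_le_mul_of_nonneg_right hσ13 hd0
        have h6 : 1 / (N : ℝ) * (nb G a).card ≤ 1 / (4 * N) * d := by
          have : 1 / (4 * (N : ℝ)) * d = 1 / N * (d / 4) := by
            field_simp
          rw [this]
          exact mul_le_mul_of_nonneg_left (by linarith) (by positivity)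
        have h7 : 2 * ((N : ℝ) * (A.card : ℝ)) ≤ d := by
          have h8 : (A.card : ℝ) ≤ 1 / (2 * N) * d := by
            refine le_trans (by exact_mod_cast h2) (h4.trans ?_)
            have : 1 / (2 * (N : ℝ)) * d = 1 / (4 * N) * d + 1 / (4 * N) * d := by
              field_simp
              ring
            linarith
          have h9 := mul_le_mul_of_nonneg_left h8 (by positivity : (0 : ℝ) ≤ 2 * N)
          have h10 : 2 * (N : ℝ) * (1 / (2 * N) * d) = d := by
            field_simp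
          linarith
        exact_mod_cast h7
      · exact absurd hx not_ul)
    (by
      intro x hx1 hx2 hx3
      rcases x with a | w
      · rw [mem_filter]
        exact ⟨mem_univ _, hc2 a (fun h' => hx1 (mem_ul.mpr h')) (fun h' => hx2 (mem_ul.mpr h'))⟩
      · exact absurd mem_wr hx3)
    (by
      intro x y hx1 hx2 hy1 hy2 hxy
      rcases x with a | w
      · rcases y with b | w
        · exact hc3 a b (fun h' => hx1 (mem_ul.mpr h')) (fun h' => hy1 (mem_ul.mpr h')) hxy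
        · exact absurd mem_wr hy2
      · exact absurd mem_wr hx2)
  have hcc : ∀ v, v ∉ Fr → c' (Sum.inl v) = c v :=
    fun v hv => hc'1 (Sum.inl v) (fun h' => hv (mem_ul.mp h')) not_wr
  obtain ⟨t, ht⟩ := hrun c'
    (by
      intro x hx
      rcases x with a | w
      · have ha := mem_ul.mp hx
        rw [hcc a (fun h' => disjoint_left.mp hFU h' ha)]
        exact hc1 a ha
      · exact absurd hx not_ul)
    (by
      intro x hx
      have h1 := hc'2 x hx
      rw [mem_filter] at h1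
      exact h1.2)
    hc'3
  exact ⟨_, runR_of e hBL.deg hSF hFU hH hlb' hsup hCol hcc ht⟩

end Pool.Agent.Work.MP_db9399_sw.helper1
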