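import Pool.Agent.Work.MP_db9399_sw.Ov
import Pool.Agent.Work.MP_db9399_ot_helper1.OUT

/-! # OUTV: lifting labels and tests (owner helper1) -/

set_option autoImplicit false
set_option linter.unusedSectionVars false

namespace Pool.Agent.Work.MP_db9399_sw.helper1

open Finset Classical
open Pool.Agent.Work.MP_db9399_all (nb)
open Pool.Agent.Work.MP_db9399_px (ee)
open Pool.Agent.Work.MP_db9399_dn (IsMat Tot)
open Pool.Agent.Work.MP_db9399_mad (EG)
open Pool.Agent.Work.MP_db9399_bg (den cl LabP HPre)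
open Pool.Agent.Work.MP_db9399_ot.helper1
open Pool.Agent.Work.MP_db9399_sw

universe u

section lift
variable {V : Type u} [Fintype V] {W : Type} [Fintype W]

theorem nb_eh (Q : SimpleGraph V) (a : V) :
    nb (eh Q : SimpleGraph (V ⊕ W)) (Sum.inl a) = ul (nb Q a) := by
  ext x
  rw [MP_db9399_ot.helper1.mem_nb]
  rcases x with b | w
  · rw [mem_ul, MP_db9399_ot.helper1.mem_nb, eh_ll]
  · exact ⟨fun h => absurd h eh_r', fun h => absurd h not_ul⟩

theorem nb_eh_r (Q : SimpleGraph V) (w : W) :
    nb (eh Q : SimpleGraph (V ⊕ W)) (Sum.inr w) = ∅ := by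
  rw [eq_empty_iff_forall_notMem]
  intro x hx
  rw [MP_db9399_ot.helper1.mem_nb] at hx
  exact eh_r hx

theorem ul_inter_cl {inst : DecidableEq (V ⊕ W)} {T : Type} (lab : V ⊕ W → T) (P : Finset T)
    (A : Finset V) : (ul A : Finset (V ⊕ W)) ∩ cl lab P =
      ul (A ∩ cl (fun v => lab (Sum.inl v)) P) := by
  ext x
  rw [Finset.mem_inter, mem_cl]
  rcases x with b | w
  · rw [mem_ul, mem_ul, Finset.mem_inter, mem_cl]
  · exact ⟨fun h => absurd h.1 not_ul, fun h => absurd h not_ul⟩

theorem ul_inter {inst : DecidableEq (V ⊕ W)} (A B : Finset V) :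
    (ul A : Finset (V ⊕ W)) ∩ ul B = ul (A ∩ B) := by
  ext x
  rw [Finset.mem_inter]
  rcases x with b | w
  · rw [mem_ul, mem_ul, mem_ul, Finset.mem_inter]
  · exact ⟨fun h => absurd h.1 not_ul, fun h => absurd h not_ul⟩

theorem card_ul (A : Finset V) : (ul A : Finset (V ⊕ W)).card = A.card := by
  unfold ul
  rw [card_map]

theorem ee_ul (Q : SimpleGraph V) (A B : Finset V) :
    ee (eh Q : SimpleGraph (V ⊕ W)) (ul A) (ul B) = ee Q A B := by
  unfold ee
  have h : ∀ f : V ⊕ W → ℝ, ∑ x ∈ (ul A : Finset (V ⊕ W)), f x = ∑ a ∈ A, f (Sum.inl a) := by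
    intro f
    unfold ul
    rw [sum_map]
    rfl
  rw [h]
  apply sum_congr rfl
  intro a _
  rw [nb_eh, ul_inter, card_ul]

theorem labD_of {T : Type} [Fintype T] {Q : SimpleGraph V} {d : ℕ} {σ c1 : ℝ}
    {lab : V ⊕ W → T} (h : LabP (eh Q : SimpleGraph (V ⊕ W)) d σ c1 lab) :
    LabD Q d σ (fun v => lab (Sum.inl v)) where
  deg v P := by
    have h1 := h.deg (Sum.inl v) P
    rw [nb_eh, ul_inter_cl, card_ul, card_ul] at h1
    exact h1
  sps v P := by
    have h1 := h.sps (Sum.inl v) P
    rw [nb_eh, ul_inter_cl, ee_ul, ee_ul] at h1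
    exact h1

theorem labD_P {T : Type} [Fintype T] {Q : SimpleGraph V} {d : ℕ} {σ c1 : ℝ}
    {lab : V → T} (h : LabP Q d σ c1 lab) : LabD Q d σ lab := ⟨h.deg, h.sps⟩

/-- the average only depends on the restriction -/
theorem avgL_lift {T : Type} [Fintype T] [Nonempty T] (Φ : (V → T) → ℝ) :
    avgL (fun f : V ⊕ W → T => Φ (fun v => f (Sum.inl v))) = avgL Φ := by
  have h1 : ∀ (i1 : Fintype (V ⊕ W → T)),
      (@Finset.univ _ i1).sum (fun f => Φ (fun v => f (Sum.inl v))) =
      (Fintype.card (W → T)) * ∑ f : V → T, Φ f := by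
    intro i1
    rw [← (Equiv.sumArrowEquivProdArrow V W T).symm.sum_comp, Fintype.sum_prod_type]
    rw [mul_sum]
    apply sum_congr rfl
    intro f _
    have : ∀ g : W → T, Φ (fun v => (Equiv.sumArrowEquivProdArrow V W T).symm (f, g)
        (Sum.inl v)) = Φ f := fun g => rfl
    rw [sum_congr rfl (fun g _ => this g), sum_const, card_univ, nsmul_eq_mul]
  have h2 : ∀ (i1 : Fintype (V ⊕ W → T)), ((@Fintype.card _ i1 : ℕ) : ℝ) =
      Fintype.card (W → T) * Fintype.card (V → T) := by
    intro i1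
    have := Fintype.card_congr (Equiv.sumArrowEquivProdArrow V W T)
    rw [this, Fintype.card_prod]
    push_cast
    ring
  have h3 : (Fintype.card (W → T) : ℝ) ≠ 0 := by
    have : 0 < Fintype.card (W → T) := Fintype.card_pos
    positivity
  unfold avgL
  rw [← mul_div_mul_left (∑ f : V → T, Φ f) (Fintype.card (V → T) : ℝ) h3]
  exact congrArg₂ (fun x y : ℝ => x / y) (h1 _) (h2 _)

theorem tq_lift {s : ℝ} {d : ℕ} {T : Type} {J : Type u} [Fintype J] {Φ : J → (V → T) → ℝ}
    {c : J → V → ℝ} {t : J → ℝ} (h : TQ s d Φ c t) :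
    TQ s d (fun j (f : V ⊕ W → T) => Φ j (fun v => f (Sum.inl v)))
      (fun j => Sum.elim (c j) (fun _ => 0)) t where
  c0 j x := by
    rcases x with v | w
    · exact h.c0 j v
    · exact le_rfl
  lip j x f f' hf := by
    rcases x with v | w
    · apply h.lip j v
      intro w hw
      exact hf (Sum.inl w) (fun h' => hw (Sum.inl.inj h'))
    · have : (fun v => f (Sum.inl v)) = fun v => f' (Sum.inl v) := by
        ext v
        exact hf (Sum.inl v) (fun h' => by cases h')
      simp only [Sum.elim_inr, this, sub_self, abs_zero, le_refl]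
  num x := by
    rcases x with v | w
    · exact h.num v
    · simp
  t0 := h.t0
  big j := by
    have h1 := h.big j
    have h2 : (univ.filter (fun x : V ⊕ W => (Sum.elim (c j) (fun _ => 0) : V ⊕ W → ℝ) x ≠ 0)) =
        ul (univ.filter (fun v => c j v ≠ 0)) := by
      ext x
      rcases x with v | w
      · rw [mem_ul]
        simp
      · simp only [mem_filter, mem_univ, true_and, Sum.elim_inr, ne_eq, not_true_eq_false,
          false_iff]
        exact not_ul
    have h3 : ∑ x : V ⊕ W, (Sum.elim (c j) (fun _ => 0) : V ⊕ W → ℝ) x ^ 2 =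
        ∑ v, c j v ^ 2 := by
      rw [Fintype.sum_sum_type]
      simp
    rw [h2, h3, card_ul]
    exact h1

/-- a larger degree -/
theorem tq_two {s : ℝ} {d : ℕ} {T : Type} {J : Type u} [Fintype J] {Φ : J → (V → T) → ℝ}
    {c : J → V → ℝ} {t : J → ℝ} (h : TQ s d Φ c t) (hs : 0 ≤ s) (hd : 6 ≤ d) :
    TQ (s / 2) (2 * d) Φ c t where
  c0 := h.c0
  lip := h.lip
  num v := (h.num v).trans (Nat.pow_le_pow_left (by omega) 10)
  t0 := h.t0
  big j := by
    refine le_trans ?_ (h.big j)
    apply mul_le_mul_of_nonneg_right _ (sum_nonneg fun v _ => sq_nonneg _)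
    have hd0 : (6 : ℝ) ≤ d := by exact_mod_cast hd
    have h1 : Real.log ((2 * d : ℕ) : ℝ) ^ 2 ≤ 2 * Real.log d ^ 2 := by
      push_cast
      rw [Real.log_mul (by norm_num) (by positivity)]
      have h2 : Real.log 2 ≤ 0.6931471808 := Real.log_two_lt_d9.le
      have h3 : 0 < Real.log 2 := Real.log_pos (by norm_num)
      have h4 : 2 * Real.log 2 ≤ Real.log d := by
        have : 2 * Real.log 2 = Real.log 4 := by
          rw [show (4 : ℝ) = 2 ^ (2 : ℕ) by norm_num, Real.log_pow]
          norm_num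
        rw [this]
        exact Real.log_le_log (by norm_num) (by linarith)
      have h5 : 1.7 ≤ Real.log d := by
        have h6 : Real.log 6 ≤ Real.log d := Real.log_le_log (by norm_num) hd0
        have h7 : (1.7 : ℝ) ≤ Real.log 6 := by
          rw [Real.le_log_iff_exp_le (by norm_num)]
          have h8 := Real.exp_one_lt_d9
          have h9 : Real.exp 1.7 ^ 10 = Real.exp 1 ^ 17 := by
            rw [← Real.exp_nat_mul, ← Real.exp_nat_mul]
            norm_num
          have h10 : Real.exp 1 ^ 17 ≤ (6 : ℝ) ^ 10 := by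
            calc Real.exp 1 ^ 17 ≤ 2.7182818286 ^ 17 :=
                  pow_le_pow_left₀ (Real.exp_pos _).le h8.le 17
              _ ≤ 6 ^ 10 := by norm_num
          rw [← h9] at h10
          exact le_of_pow_le_pow_left₀ (by norm_num) (by norm_num) h10
        linarith
      nlinarith
    have h6 : (((univ.filter (fun v => c j v ≠ 0)).card : ℝ) / ((2 * d : ℕ) : ℝ)) ≤
        ((univ.filter (fun v => c j v ≠ 0)).card : ℝ) / d := by
      apply div_le_div_of_nonneg_left (Nat.cast_nonneg _) (by linarith)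
      push_cast
      linarith
    have h7 : 0 ≤ ((univ.filter (fun v => c j v ≠ 0)).card : ℝ) / d := by positivity
    have h8 : s / 2 * (Real.log ((2 * d : ℕ) : ℝ) ^ 2 +
        ((univ.filter (fun v => c j v ≠ 0)).card : ℝ) / ((2 * d : ℕ) : ℝ)) ≤
        s / 2 * (2 * Real.log d ^ 2 + 2 * (((univ.filter (fun v => c j v ≠ 0)).card : ℝ) / d)) :=
      mul_le_mul_of_nonneg_left (by linarith) (by linarith)
    refine h8.trans (le_of_eq ?_)
    ring

end lift

end Pool.Agent.Work.MP_db9399_sw.helper1
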